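import Pool.Agent.J4.H60.MS.Coh

set_option autoImplicit false

/-!
# The symbol length of Massey products in Galois cohomology is uniformly bounded

`GFp p F` is the maximal pro-`p` Galois group `G_F(p)` of the field `F` (the maximal pro-`p` quotient
of the Galois group of the separable closure). `H1 p G` and `H2 p G` are the continuous cohomology
groups of `G` with coefficients `ℤ/p`, `massey n φ ⊆ H2 p G` is the `n`-fold Massey product of
`φ 1, …, φ n`, and `symbolLength α` is the least number of cup products of classes of degree one with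
the sum `α` (`⊤` if there is none).

For fields with a primitive `p`-th root of unity, the symbol length of the elements of `n`-fold Massey
products is bounded by a constant `M(n, p)` which does not depend on the field, if only it is always
finite. It is finite by the Merkurjev-Suslin theorem; so the constant `M(n, p)` exists for all `n`
and `p`. The same holds for the pull-backs `ρ^*κ` of a fixed class `κ ∈ H²(Q, ℤ/p)` of a finite group
`Q` under all homomorphisms `ρ : G_F(p) → Q` and all `F`.

Proof. Let `K_m` be fields, `U` a nonprincipal ultrafilter and `K` the ultraproduct. The product of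
the groups `Gal(K_m)` acts on the ultraproduct of the separable closures, which contains the
separable closure of `K`; the image of the product in `Gal(K)` is dense. Multiplicative maps from
`Gal(K_m)` to a finite set with a binary operation have a limit on `Gal(K)`, and conversely every
locally constant function on `Gal(K)` comes from locally constant functions on `Gal(K_m)`. The number
of the values decides whether such a map factors through the maximal pro-`p` quotient. So a
representation of the limit class as a sum of `k` symbols gives representations of almost all the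
given classes as sums of `k` symbols.
-/

namespace Pool.Agent.Results.MP_fac77f_nt.UniformSymbolLength

open Pool.Agent.J4.H60.MS

universe u

/-- The field `F` contains a primitive `p`-th root of unity. -/
def HasRoot (p : ℕ) (F : Type u) [Field F] : Prop := ∃ ζ : F, IsPrimitiveRoot ζ p

/-- The statement of the Merkurjev-Suslin theorem for the prime `p`: every class in
`H²(G_F(p), ℤ/p)` is a finite sum of cup products of classes of degree one. -/
def MerkurjevSuslin (p : ℕ) : Prop :=
  ∀ (F : Type u) [Field F], HasRoot p F → ∀ α : H2 p (GFp p F), symbolLength α < ⊤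

/-- all elements of all `n`-fold Massey products have finite symbol length -/
def MasseyFinite (p n : ℕ) : Prop :=
  ∀ (F : Type u) [Field F], HasRoot p F → ∀ φ : ℕ → H1 p (GFp p F), ∀ α ∈ massey n φ,
    symbolLength α < ⊤

/-- all elements of all `n`-fold Massey products have symbol length at most `M` -/
def MasseyBound (p n M : ℕ) : Prop :=
  ∀ (F : Type u) [Field F], HasRoot p F → ∀ φ : ℕ → H1 p (GFp p F), ∀ α ∈ massey n φ,
    symbolLength α ≤ M

theorem massey_iff (p : ℕ) [Fact p.Prime] (n : ℕ) (hn : 2 ≤ n) :
    MasseyFinite.{u} p n ↔ ∃ M : ℕ, MasseyBound.{u} p n M := by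
  constructor
  · intro h
    obtain ⟨M, hM⟩ := uniform'.{u} p (T := TT p n) mu kap (by
      intro F _ hF f hf hfm
      obtain ⟨φ, D, hD⟩ := to_system hn f hf hfm
      obtain ⟨c, hc⟩ := value_exists D
      obtain ⟨k, hk⟩ := symbolLength_lt_top_iff.1 (h F hF φ (cls c) ⟨D, c, hc, rfl⟩)
      rw [isSum_iff] at hk
      refine ⟨k, ?_⟩
      have e : (fun x y => kap (f x) (f y)) = fun g h => c.1 (g, h) := by
        funext x y
        rw [hD, hc]
      rw [e]
      exact hk)
    refine ⟨M, ?_⟩
    rintro F _ hF φ α ⟨D, c, hc, rfl⟩
    obtain ⟨f, hf, hfm, hfk⟩ := of_system D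
    rw [symbolLength_le_iff, isSum_iff]
    have h1 := hM F hF f hf hfm
    have e : (fun x y => kap (f x) (f y)) = fun g h => c.1 (g, h) := by
      funext x y
      rw [hfk, hc]
    rwa [e] at h1
  · rintro ⟨M, hM⟩ F _ hF φ α hα
    exact (hM F hF φ α hα).trans_lt (ENat.natCast_lt_top M)

/-- all pull-backs of the cocycle `c` of the group `Q` to groups `G_F(p)` have finite symbol length -/
def PullFinite (p : ℕ) {Q : Type} [Group Q] [TopologicalSpace Q] (c : Z2 p Q) : Prop :=
  ∀ (F : Type u) [Field F], HasRoot p F → ∀ ρ : GFp p F →ₜ* Q, symbolLength (cls (pullZ ρ c)) < ⊤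

/-- all pull-backs of the cocycle `c` of the group `Q` to groups `G_F(p)` have symbol length at
most `M` -/
def PullBound (p : ℕ) {Q : Type} [Group Q] [TopologicalSpace Q] (c : Z2 p Q) (M : ℕ) : Prop :=
  ∀ (F : Type u) [Field F], HasRoot p F → ∀ ρ : GFp p F →ₜ* Q, symbolLength (cls (pullZ ρ c)) ≤ M

theorem pull_iff (p : ℕ) [Fact p.Prime] (Q : Type) [Group Q] [Finite Q] [TopologicalSpace Q]
    [DiscreteTopology Q] (c : Z2 p Q) :
    PullFinite.{u} p c ↔ ∃ M : ℕ, PullBound.{u} p c M := by
  constructor
  · intro h
    obtain ⟨M, hM⟩ := uniform'.{u} p (T := Q) (fun x y => x * y) (fun x y => c.1 (x, y)) (by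
      intro F _ hF f hf hfm
      obtain ⟨k, hk⟩ := symbolLength_lt_top_iff.1 (h F hF
        ⟨MonoidHom.mk' f hfm, (IsLocallyConstant.iff_continuous f).1 hf⟩)
      exact ⟨k, (isSum_iff k _).1 hk⟩)
    refine ⟨M, fun F _ hF ρ => ?_⟩
    rw [symbolLength_le_iff]
    refine (isSum_iff M _).2 ?_
    exact hM F hF ρ ((IsLocallyConstant.iff_continuous _).2 ρ.continuous_toFun) (map_mul ρ)
  · rintro ⟨M, hM⟩ F _ hF ρ
    exact (hM F hF ρ).trans_lt (ENat.natCast_lt_top M)

theorem result (p : ℕ) [Fact p.Prime] :
    -- (1) the Merkurjev-Suslin theorem implies the existence of the uniform bounds `M(n, p)`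
    (MerkurjevSuslin.{u} p → ∀ n : ℕ, 2 ≤ n → ∃ M : ℕ, MasseyBound.{u} p n M) ∧
    -- (2) and of uniform bounds for the pull-backs of every class of every finite group
    (MerkurjevSuslin.{u} p → ∀ (Q : Type) [Group Q] [Finite Q] [TopologicalSpace Q]
      [DiscreteTopology Q] (c : Z2 p Q), ∃ M : ℕ, PullBound.{u} p c M) ∧
    -- (3) unconditionally: if the symbol lengths are finite, they are uniformly bounded
    (∀ n : ℕ, 2 ≤ n → (MasseyFinite.{u} p n ↔ ∃ M : ℕ, MasseyBound.{u} p n M)) ∧
    (∀ (Q : Type) [Group Q] [Finite Q] [TopologicalSpace Q] [DiscreteTopology Q] (c : Z2 p Q),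
      PullFinite.{u} p c ↔ ∃ M : ℕ, PullBound.{u} p c M) ∧
    -- (4) every defining system has a value
    (∀ (F : Type u) [Field F] (n : ℕ) (φ : ℕ → H1 p (GFp p F)) (D : DefiningSystem n φ),
      ∃ c : Z2 p (GFp p F), IsValue D c) := by
  exact ⟨fun h n hn => (massey_iff p n hn).1 fun F _ hF φ α _ => h F hF α,
    fun h Q _ _ _ _ c => (pull_iff p Q c).1 fun F _ hF ρ => h F hF _,
    fun n hn => massey_iff p n hn, fun Q _ _ _ _ c => pull_iff p Q c,
    fun F _ n φ D => value_exists D⟩

end Pool.Agent.Results.MP_fac77f_nt.UniformSymbolLength
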